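import Mathlib

set_option autoImplicit false

namespace Pool.Agent.Results.MP_a374b6_co.TwoComponents

variable {V : Type*} {G : SimpleGraph V}

/-- some edge joins the two sets. -/
def Touch (G : SimpleGraph V) (X Y : Set V) : Prop := ∃ x ∈ X, ∃ y ∈ Y, G.Adj x y

lemma Touch.symm {X Y : Set V} (h : Touch G X Y) : Touch G Y X := by
  obtain ⟨x, hx, y, hy, hxy⟩ := h
  exact ⟨y, hy, x, hx, hxy.symm⟩

lemma Touch.mono {X Y X' Y' : Set V} (h : Touch G X Y) (hX : X ⊆ X') (hY : Y ⊆ Y') :
    Touch G X' Y' := by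
  obtain ⟨x, hx, y, hy, hxy⟩ := h
  exact ⟨x, hX hx, y, hY hy, hxy⟩

/-- A connected set split in two nonempty parts has an edge between the parts. -/
lemma cut {X Y : Set V} (h : (G.induce (X ∪ Y)).Preconnected) (hX : X.Nonempty)
    (hY : Y.Nonempty) (hd : Disjoint X Y) : Touch G X Y := by
  obtain ⟨x, hx⟩ := hX
  obtain ⟨y, hy⟩ := hY
  obtain ⟨p⟩ := h ⟨x, Or.inl hx⟩ ⟨y, Or.inr hy⟩
  obtain ⟨d, -, hd1, hd2⟩ := p.exists_boundary_dart {z | (z : V) ∈ X} hx
    (fun hyX => Set.disjoint_left.mp hd hyX hy)
  refine ⟨d.fst, hd1, d.snd, ?_, ?_⟩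
  · rcases d.snd.2 with h' | h'
    · exact absurd h' hd2
    · exact h'
  · have := d.adj
    simpa using this

/-- union of two connected sets that touch is connected -/
lemma conn_union {X Y : Set V} (hX : (G.induce X).Preconnected) (hY : (G.induce Y).Preconnected)
    (h : Touch G X Y) : (G.induce (X ∪ Y)).Connected := by
  obtain ⟨x, hx, y, hy, hxy⟩ := h
  exact SimpleGraph.connected_induce_union hX hY hx hy hxy

lemma touch_union_left {X Y Z : Set V} (h : Touch G (X ∪ Y) Z) : Touch G X Z ∨ Touch G Y Z := by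
  obtain ⟨x, hx, y, hy, hxy⟩ := h
  rcases hx with hx | hx
  · exact Or.inl ⟨x, hx, y, hy, hxy⟩
  · exact Or.inr ⟨x, hx, y, hy, hxy⟩

lemma touch_union_right {X Y Z : Set V} (h : Touch G Z (X ∪ Y)) : Touch G Z X ∨ Touch G Z Y := by
  rcases touch_union_left h.symm with h | h
  · exact Or.inl h.symm
  · exact Or.inr h.symm

/-- A disconnected union of two connected sets. -/
structure Split (G : SimpleGraph V) (M A B : Set V) : Prop where
  eq : M = A ∪ B
  cA : (G.induce A).Connected
  cB : (G.induce B).Connected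
  disj : Disjoint A B
  nt : ¬ Touch G A B

lemma Split.symm {M A B : Set V} (h : Split G M A B) : Split G M B A :=
  ⟨by rw [h.eq, Set.union_comm], h.cB, h.cA, h.disj.symm, fun t => h.nt t.symm⟩

lemma Connected.nonempty' {A : Set V} (h : (G.induce A).Connected) : A.Nonempty := by
  obtain ⟨⟨a, ha⟩⟩ := h.nonempty
  exact ⟨a, ha⟩

lemma exists_split {M A B : Set V} (hne : M.Nonempty) (hM : M = A ∪ B)
    (hA : (G.induce A).Preconnected) (hB : (G.induce B).Preconnected)
    (hc : ¬ (G.induce M).Connected) : Split G M A B := by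
  subst hM
  have hAne : A.Nonempty := by
    by_contra h
    rw [Set.not_nonempty_iff_eq_empty] at h
    subst h
    rw [Set.empty_union] at hc hne
    have : Nonempty B := hne.to_subtype
    exact hc ⟨hB⟩
  have hBne : B.Nonempty := by
    by_contra h
    rw [Set.not_nonempty_iff_eq_empty] at h
    subst h
    rw [Set.union_empty] at hc hne
    have : Nonempty A := hne.to_subtype
    exact hc ⟨hA⟩
  have : Nonempty A := hAne.to_subtype
  have : Nonempty B := hBne.to_subtype
  refine ⟨rfl, ⟨hA⟩, ⟨hB⟩, ?_, fun t => hc (conn_union hA hB t)⟩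
  rw [Set.disjoint_iff_inter_eq_empty]
  by_contra h
  exact hc (SimpleGraph.induce_union_connected hA hB (Set.nonempty_iff_ne_empty.mpr h))

/-- each part of a split node touches every other node -/
lemma Split.touch {M A B N : Set V} (h : Split G M A B) (hd : Disjoint M N) (_ : N.Nonempty)
    (hc : (G.induce (M ∪ N)).Connected) : Touch G A N := by
  have h1 : Touch G A (B ∪ N) := by
    apply cut _ (Connected.nonempty' h.cA)
    · exact (Connected.nonempty' h.cB).mono Set.subset_union_left
    · rw [Set.disjoint_union_right]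
      exact ⟨h.disj, hd.mono_left (by rw [h.eq]; exact Set.subset_union_left)⟩
    · rw [← Set.union_assoc, ← h.eq]
      exact hc.preconnected
  rcases touch_union_right h1 with h2 | h2
  · exact absurd h2 h.nt
  · exact h2

/-- one of the two parts of a split node serves another node -/
lemma Split.serve {M A B N C D : Set V} (h : Split G M A B) (h' : Split G N C D)
    (hd : Disjoint M N) (hc : (G.induce (M ∪ N)).Connected) :
    (G.induce (N ∪ A)).Connected ∨ (G.induce (N ∪ B)).Connected := by
  have hMne : M.Nonempty := (Connected.nonempty' h.cA).mono (by rw [h.eq]; exact Set.subset_union_left)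
  have hNne : N.Nonempty := (Connected.nonempty' h'.cA).mono (by rw [h'.eq]; exact Set.subset_union_left)
  have hc' : (G.induce (N ∪ M)).Connected := by rw [Set.union_comm]; exact hc
  have tA := h.touch hd hNne hc
  have tB := h.symm.touch hd hNne hc
  have tC := h'.touch hd.symm hMne hc'
  have tD := h'.symm.touch hd.symm hMne hc'
  rw [h'.eq] at tA tB
  rw [h.eq] at tC tD
  -- if a set `X` touches both `C` and `D` then `N ∪ X` is connected
  have key : ∀ X : Set V, (G.induce X).Connected → Touch G X C → Touch G X D →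
      (G.induce (N ∪ X)).Connected := by
    intro X hX hXC hXD
    have e : N ∪ X = D ∪ (C ∪ X) := by
      rw [h'.eq, Set.union_comm C D, Set.union_assoc]
    rw [e]
    apply conn_union h'.cB.preconnected (conn_union h'.cA.preconnected hX.preconnected
      hXC.symm).preconnected
    exact hXD.symm.mono (Set.Subset.refl _) Set.subset_union_right
  by_cases hA : Touch G A C ∧ Touch G A D
  · exact Or.inl (key A h.cA hA.1 hA.2)
  by_cases hB : Touch G B C ∧ Touch G B D
  · exact Or.inr (key B h.cB hB.1 hB.2)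
  exfalso
  -- the quotient on the four parts is a bipartite graph with at most two edges
  have main : ∀ C D : Set V, Split G N C D → Touch G C (A ∪ B) → Touch G D (A ∪ B) →
      Touch G A C → ¬ Touch G A D → ¬ (Touch G B C ∧ Touch G B D) → False := by
    intro C D h' tC tD hAC hAD hB
    have hBD : Touch G B D := by
      rcases touch_union_right tD with t | t
      · exact absurd t.symm hAD
      · exact t.symm
    have hBC : ¬ Touch G B C := fun t => hB ⟨t, hBD⟩
    have t : Touch G (A ∪ C) (B ∪ D) := by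
      apply cut
      · have e : (A ∪ C) ∪ (B ∪ D) = M ∪ N := by
          rw [h.eq, h'.eq]
          ext x
          simp only [Set.mem_union]
          tauto
        rw [e]
        exact hc.preconnected
      · exact (Connected.nonempty' h.cA).mono Set.subset_union_left
      · exact (Connected.nonempty' h.cB).mono Set.subset_union_left
      · rw [h.eq, h'.eq] at hd
        rw [Set.disjoint_union_left, Set.disjoint_union_right, Set.disjoint_union_right]
        rw [Set.disjoint_union_left, Set.disjoint_union_right, Set.disjoint_union_right] at hd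
        exact ⟨⟨h.disj, hd.1.2⟩, hd.2.1.symm, h'.disj⟩
    rcases touch_union_left t with t | t
    · rcases touch_union_right t with t | t
      · exact h.nt t
      · exact hAD t
    · rcases touch_union_right t with t | t
      · exact hBC t.symm
      · exact h'.nt t
  rcases touch_union_right tA with t | t
  · exact main C D h' tC tD t (fun t' => hA ⟨t, t'⟩) hB
  · exact main D C h'.symm tD tC t (fun t' => hA ⟨t', t⟩) (fun q => hB ⟨q.2, q.1⟩)

/-- a part of a split node serves every connected node -/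
lemma Split.serve' {M A B N : Set V} (h : Split G M A B) (h' : (G.induce N).Connected)
    (hd : Disjoint M N) (hc : (G.induce (M ∪ N)).Connected) :
    (G.induce (N ∪ A)).Connected :=
  conn_union h'.preconnected h.cA.preconnected (h.touch hd (Connected.nonempty' h') hc).symm

section main

variable {ι : Type*} [DecidableEq ι] {M : ι → Set V}

lemma terminal (hne : ∀ i, (M i).Nonempty) (hdisj : ∀ i j, i ≠ j → Disjoint (M i) (M j))
    (hconn : ∀ i j, i ≠ j → (G.induce (M i ∪ M j)).Connected) (S : Finset ι)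
    (h2 : ∀ i ∈ S, ∃ A B, M i = A ∪ B ∧ (G.induce A).Preconnected ∧ (G.induce B).Preconnected)
    (hno : ∀ i ∈ S, ∀ j ∈ S, ∀ k ∈ S, i ≠ j → i ≠ k → j ≠ k → ∀ A B : Set V, Disjoint A B →
      A ∪ B ⊆ M k → (G.induce (M i ∪ A)).Connected → ¬ (G.induce (M j ∪ B)).Connected) :
    ∃ C : ι → Set V, ∀ k ∈ S, C k ⊆ M k ∧ (G.induce (C k)).Connected ∧
      (∀ l, l ≠ k → Touch G (C k) (M l)) ∧ ∀ l ∈ S, l ≠ k → Touch G (C k) (C l) := by
  classical
  have hsplit : ∀ k ∈ S, ¬ (G.induce (M k)).Connected → ∃ A B, Split G (M k) A B := by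
    intro k hk hc
    obtain ⟨A, B, h, hA, hB⟩ := h2 k hk
    exact ⟨A, B, exists_split (hne k) h hA hB hc⟩
  have hMM : ∀ k l, l ≠ k → Touch G (M k) (M l) := fun k l hkl =>
    cut (hconn k l hkl.symm).preconnected (hne k) (hne l) (hdisj k l hkl.symm)
  by_cases hall : ∀ k ∈ S, (G.induce (M k)).Connected
  · exact ⟨M, fun k hk => ⟨Set.Subset.refl _, hall k hk, fun l hl => hMM k l hl,
      fun l _ hl => hMM k l hl⟩⟩
  push Not at hall
  obtain ⟨k0, hk0, hk0c⟩ := hall
  by_cases hall2 : ∀ k ∈ S, ¬ (G.induce (M k)).Connected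
  · have hC : ∀ k ∈ S, ∃ C D, Split G (M k) C D ∧
        ∀ i ∈ S, i ≠ k → (G.induce (M i ∪ C)).Connected := by
      intro k hk
      obtain ⟨A, B, hs⟩ := hsplit k hk (hall2 k hk)
      by_cases hex : ∃ i0 ∈ S, i0 ≠ k
      · obtain ⟨i0, hi0, hik⟩ := hex
        have main : ∀ A B, Split G (M k) A B → (G.induce (M i0 ∪ A)).Connected →
            ∀ i ∈ S, i ≠ k → (G.induce (M i ∪ A)).Connected := by
          intro A B hs hA i hi hik'
          by_cases hii : i = i0
          · rw [hii]; exact hA
          obtain ⟨C, D, hs'⟩ := hsplit i hi (hall2 i hi)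
          rcases hs.serve hs' (hdisj k i hik'.symm) (hconn k i hik'.symm) with h | h
          · exact h
          · exact absurd h (hno i0 hi0 i hi k hk (Ne.symm hii) hik hik' A B hs.disj
              (by rw [hs.eq]) hA)
        obtain ⟨C, D, hs'⟩ := hsplit i0 hi0 (hall2 i0 hi0)
        rcases hs.serve hs' (hdisj k i0 hik.symm) (hconn k i0 hik.symm) with h | h
        · exact ⟨A, B, hs, main A B hs h⟩
        · exact ⟨B, A, hs.symm, main B A hs.symm h⟩
      · exact ⟨A, B, hs, fun i hi hik => absurd ⟨i, hi, hik⟩ hex⟩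
    choose! C D hCD hserve using hC
    refine ⟨C, fun k hk => ⟨?_, (hCD k hk).cA, ?_, ?_⟩⟩
    · conv_rhs => rw [(hCD k hk).eq]
      exact Set.subset_union_left
    · intro l hl
      exact (hCD k hk).touch (hdisj k l hl.symm) (hne l) (hconn k l hl.symm)
    · intro l hl hlk
      apply (hCD k hk).touch _ (Connected.nonempty' (hCD l hl).cA)
        (hserve l hl k hk hlk.symm)
      apply (hdisj k l hlk.symm).mono_right
      conv_rhs => rw [(hCD l hl).eq]
      exact Set.subset_union_left
  · push Not at hall2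
    obtain ⟨i, hi, hic⟩ := hall2
    have hik : i ≠ k0 := by rintro rfl; exact hk0c hic
    obtain ⟨A, B, hs⟩ := hsplit k0 hk0 hk0c
    have hA : (G.induce (M i ∪ A)).Connected :=
      hs.serve' hic (hdisj k0 i hik.symm) (hconn k0 i hik.symm)
    have hB : (G.induce (M i ∪ B)).Connected :=
      hs.symm.serve' hic (hdisj k0 i hik.symm) (hconn k0 i hik.symm)
    have hS : ∀ j ∈ S, j = i ∨ j = k0 := by
      intro j hj
      by_contra hcon
      push Not at hcon
      obtain ⟨hji, hjk⟩ := hcon
      have hj2 : (G.induce (M j ∪ A)).Connected ∨ (G.induce (M j ∪ B)).Connected := by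
        by_cases hjc : (G.induce (M j)).Connected
        · exact Or.inl (hs.serve' hjc (hdisj k0 j hjk.symm) (hconn k0 j hjk.symm))
        · obtain ⟨C, D, hs'⟩ := hsplit j hj hjc
          exact hs.serve hs' (hdisj k0 j hjk.symm) (hconn k0 j hjk.symm)
      rcases hj2 with h | h
      · exact hno j hj i hi k0 hk0 hji hjk hik A B hs.disj (by rw [hs.eq]) h hB
      · exact hno i hi j hj k0 hk0 (Ne.symm hji) hik hjk A B hs.disj (by rw [hs.eq]) hA h
    have hAM : A ⊆ M k0 := by rw [hs.eq]; exact Set.subset_union_left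
    have hAl : ∀ l, l ≠ k0 → Touch G A (M l) := fun l hl =>
      hs.touch (hdisj k0 l hl.symm) (hne l) (hconn k0 l hl.symm)
    obtain ⟨C, hC0, hC1⟩ : ∃ C : ι → Set V, C k0 = A ∧ ∀ l, l ≠ k0 → C l = M l :=
      ⟨Function.update M k0 A, Function.update_self _ _ _, fun l hl =>
        Function.update_of_ne hl _ _⟩
    refine ⟨C, fun k hk => ?_⟩
    by_cases hkk : k = k0
    · subst hkk
      rw [hC0]
      refine ⟨hAM, hs.cA, hAl, fun l hl hlk => ?_⟩
      rw [hC1 l hlk]
      exact hAl l hlk
    · have hki : k = i := (hS k hk).resolve_right hkk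
      subst hki
      rw [hC1 k hkk]
      refine ⟨Set.Subset.refl _, hic, fun l hl => hMM k l hl, fun l hl hlk => ?_⟩
      have hlk0 : l = k0 := (hS l hl).resolve_left hlk
      subst hlk0
      rw [hC0]
      exact (hAl k hkk).symm

/-- the main induction, for pseudo-nodes with at most two components -/
lemma good_part (hne : ∀ i, (M i).Nonempty) (hdisj : ∀ i j, i ≠ j → Disjoint (M i) (M j))
    (hconn : ∀ i j, i ≠ j → (G.induce (M i ∪ M j)).Connected) (m : ℕ) : ∀ (S : Finset ι)
    (_ : S.card = m)
    (_ : ∀ i ∈ S, ∃ A B, M i = A ∪ B ∧ (G.induce A).Preconnected ∧ (G.induce B).Preconnected),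
    ∃ L : List (Set V), m - m / 3 ≤ L.length ∧
      L.Pairwise (fun X Y => Disjoint X Y ∧ Touch G X Y) ∧
      ∀ X ∈ L, X ⊆ (⋃ i ∈ S, M i) ∧ (G.induce X).Connected ∧ ∀ j, j ∉ S → Touch G X (M j) := by
  classical
  have hMM : ∀ k l, l ≠ k → Touch G (M k) (M l) := fun k l hkl =>
    cut (hconn k l hkl.symm).preconnected (hne k) (hne l) (hdisj k l hkl.symm)
  induction m using Nat.strong_induction_on with
  | _ m ih =>
  intro S hS h2
  by_cases hno : ∀ i ∈ S, ∀ j ∈ S, ∀ k ∈ S, i ≠ j → i ≠ k → j ≠ k → ∀ A B : Set V,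
      Disjoint A B → A ∪ B ⊆ M k → (G.induce (M i ∪ A)).Connected →
      ¬ (G.induce (M j ∪ B)).Connected
  · obtain ⟨C, hC⟩ := terminal hne hdisj hconn S h2 hno
    refine ⟨S.toList.map C, ?_, ?_, ?_⟩
    · simp only [List.length_map, Finset.length_toList, hS]
      omega
    · rw [List.pairwise_map]
      have hnd := S.nodup_toList
      refine List.Pairwise.imp_of_mem ?_ hnd
      intro a b ha hb hab
      rw [Finset.mem_toList] at ha hb
      exact ⟨(hdisj a b hab).mono (hC a ha).1 (hC b hb).1, (hC a ha).2.2.2 b hb (Ne.symm hab)⟩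
    · intro X hX
      simp only [List.mem_map, Finset.mem_toList] at hX
      obtain ⟨k, hk, rfl⟩ := hX
      refine ⟨?_, (hC k hk).2.1, fun j hj => (hC k hk).2.2.1 j (fun e => hj (e ▸ hk))⟩
      exact (hC k hk).1.trans (Set.subset_biUnion_of_mem (u := M) (Finset.mem_coe.mpr hk))
  · push Not at hno
    obtain ⟨i, hi, j, hj, k, hk, hij, hik, hjk, A, B, hAB, hABM, hA, hB⟩ := hno
    set S' : Finset ι := ((S.erase i).erase j).erase k with hS'
    have hcard : S'.card = m - 3 ∧ 3 ≤ m := by
      have h1 : (S.erase i).card = m - 1 := by rw [Finset.card_erase_of_mem hi, hS]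
      have hj' : j ∈ S.erase i := Finset.mem_erase.mpr ⟨hij.symm, hj⟩
      have h2 : ((S.erase i).erase j).card = m - 2 := by
        rw [Finset.card_erase_of_mem hj', h1]; omega
      have hk' : k ∈ (S.erase i).erase j :=
        Finset.mem_erase.mpr ⟨hjk.symm, Finset.mem_erase.mpr ⟨hik.symm, hk⟩⟩
      have h3 : S'.card = m - 3 := by
        rw [hS', Finset.card_erase_of_mem hk', h2]; omega
      refine ⟨h3, ?_⟩
      have : ({i, j, k} : Finset ι) ⊆ S := by
        intro x hx
        simp only [Finset.mem_insert, Finset.mem_singleton] at hx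
        rcases hx with rfl | rfl | rfl <;> assumption
      have h4 := Finset.card_le_card this
      rw [Finset.card_eq_three.mpr ⟨i, j, k, hij, hik, hjk, rfl⟩, hS] at h4
      exact h4
    have hmem : ∀ x, x ∈ S' ↔ x ∈ S ∧ x ≠ i ∧ x ≠ j ∧ x ≠ k := by
      intro x
      simp only [hS', Finset.mem_erase]
      tauto
    obtain ⟨L, hL1, hL2, hL3⟩ := ih (m - 3) (by omega) S' hcard.1
      (fun x hx => h2 x ((hmem x).mp hx).1)
    have hiS' : i ∉ S' := fun h => ((hmem i).mp h).2.1 rfl
    have hjS' : j ∉ S' := fun h => ((hmem j).mp h).2.2.1 rfl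
    have hkS' : k ∉ S' := fun h => ((hmem k).mp h).2.2.2 rfl
    have hAk : A ⊆ M k := Set.subset_union_left.trans hABM
    have hBk : B ⊆ M k := Set.subset_union_right.trans hABM
    have hdU : ∀ x, x ∉ S' → Disjoint (M x) (⋃ i ∈ S', M i) := by
      intro x hx
      rw [Set.disjoint_iUnion₂_right]
      intro y hy
      exact hdisj x y (fun e => hx (e ▸ hy))
    refine ⟨(M i ∪ A) :: (M j ∪ B) :: L, ?_, ?_, ?_⟩
    · simp only [List.length_cons]
      have := hcard.2
      omega
    · rw [List.pairwise_cons, List.pairwise_cons]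
      refine ⟨?_, ?_, hL2⟩
      · intro X hX
        rw [List.mem_cons] at hX
        rcases hX with rfl | hX
        · refine ⟨?_, (hMM i j hij.symm).mono Set.subset_union_left Set.subset_union_left⟩
          rw [Set.disjoint_union_left, Set.disjoint_union_right, Set.disjoint_union_right]
          exact ⟨⟨hdisj i j hij, (hdisj i k hik).mono_right hBk⟩,
            ((hdisj j k hjk).mono_right hAk).symm, hAB⟩
        · obtain ⟨hX1, hX2, hX3⟩ := hL3 X hX
          refine ⟨?_, (hX3 i hiS').symm.mono Set.subset_union_left (Set.Subset.refl _)⟩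
          apply Disjoint.mono_right hX1
          rw [Set.disjoint_union_left]
          exact ⟨hdU i hiS', (hdU k hkS').mono_left hAk⟩
      · intro X hX
        obtain ⟨hX1, hX2, hX3⟩ := hL3 X hX
        refine ⟨?_, (hX3 j hjS').symm.mono Set.subset_union_left (Set.Subset.refl _)⟩
        apply Disjoint.mono_right hX1
        rw [Set.disjoint_union_left]
        exact ⟨hdU j hjS', (hdU k hkS').mono_left hBk⟩
    · have hsub : ∀ x ∈ S, M x ⊆ ⋃ i ∈ S, M i := fun x hx =>
        Set.subset_biUnion_of_mem (u := M) (Finset.mem_coe.mpr hx)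
      intro X hX
      rw [List.mem_cons, List.mem_cons] at hX
      rcases hX with rfl | rfl | hX
      · refine ⟨Set.union_subset (hsub i hi) (hAk.trans (hsub k hk)), hA, fun l hl => ?_⟩
        exact (hMM i l (fun e => hl (e ▸ hi))).mono Set.subset_union_left (Set.Subset.refl _)
      · refine ⟨Set.union_subset (hsub j hj) (hBk.trans (hsub k hk)), hB, fun l hl => ?_⟩
        exact (hMM j l (fun e => hl (e ▸ hj))).mono Set.subset_union_left (Set.Subset.refl _)
      · obtain ⟨hX1, hX2, hX3⟩ := hL3 X hX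
        refine ⟨hX1.trans ?_, hX2, fun l hl => hX3 l (fun h => hl ((hmem l).mp h).1)⟩
        intro v hv
        simp only [Set.mem_iUnion] at hv ⊢
        obtain ⟨y, hy, hvy⟩ := hv
        exact ⟨y, ((hmem y).mp hy).1, hvy⟩

/-- arbitrary pseudo-nodes are used in pairs -/
lemma pair_part (hne : ∀ i, (M i).Nonempty) (hdisj : ∀ i j, i ≠ j → Disjoint (M i) (M j))
    (hconn : ∀ i j, i ≠ j → (G.induce (M i ∪ M j)).Connected) (m : ℕ) : ∀ (T : Finset ι)
    (_ : T.card = m),
    ∃ L : List (Set V), m / 2 ≤ L.length ∧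
      L.Pairwise (fun X Y => Disjoint X Y ∧ Touch G X Y) ∧
      ∀ X ∈ L, X ⊆ (⋃ i ∈ T, M i) ∧ (G.induce X).Connected ∧ ∃ j ∈ T, M j ⊆ X := by
  classical
  have hMM : ∀ k l, l ≠ k → Touch G (M k) (M l) := fun k l hkl =>
    cut (hconn k l hkl.symm).preconnected (hne k) (hne l) (hdisj k l hkl.symm)
  induction m using Nat.strong_induction_on with
  | _ m ih =>
  intro T hT
  by_cases hm : m ≤ 1
  · exact ⟨[], by simp; omega, List.Pairwise.nil, by simp⟩
  · obtain ⟨i, hi, j, hj, hij⟩ := Finset.one_lt_card.mp (by omega : 1 < T.card)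
    have hj' : j ∈ T.erase i := Finset.mem_erase.mpr ⟨hij.symm, hj⟩
    obtain ⟨L, hL1, hL2, hL3⟩ := ih (m - 2) (by omega) ((T.erase i).erase j) (by
      rw [Finset.card_erase_of_mem hj', Finset.card_erase_of_mem hi, hT]; omega)
    have hmem : ∀ x, x ∈ (T.erase i).erase j ↔ x ∈ T ∧ x ≠ i ∧ x ≠ j := by
      intro x
      simp only [Finset.mem_erase]
      tauto
    have hiS' : i ∉ (T.erase i).erase j := fun h => ((hmem i).mp h).2.1 rfl
    have hjS' : j ∉ (T.erase i).erase j := fun h => ((hmem j).mp h).2.2 rfl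
    have hdU : ∀ x, x ∉ (T.erase i).erase j → Disjoint (M x) (⋃ y ∈ (T.erase i).erase j, M y) := by
      intro x hx
      rw [Set.disjoint_iUnion₂_right]
      intro y hy
      exact hdisj x y (fun e => hx (e ▸ hy))
    refine ⟨(M i ∪ M j) :: L, ?_, ?_, ?_⟩
    · simp only [List.length_cons]
      omega
    · rw [List.pairwise_cons]
      refine ⟨fun X hX => ?_, hL2⟩
      obtain ⟨hX1, hX2, l, hl, hlX⟩ := hL3 X hX
      have hli : l ≠ i := ((hmem l).mp hl).2.1
      refine ⟨?_, (hMM i l hli).mono Set.subset_union_left hlX⟩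
      apply Disjoint.mono_right hX1
      rw [Set.disjoint_union_left]
      exact ⟨hdU i hiS', hdU j hjS'⟩
    · have hsub : ∀ x ∈ T, M x ⊆ ⋃ i ∈ T, M i := fun x hx =>
        Set.subset_biUnion_of_mem (u := M) (Finset.mem_coe.mpr hx)
      intro X hX
      rw [List.mem_cons] at hX
      rcases hX with rfl | hX
      · exact ⟨Set.union_subset (hsub i hi) (hsub j hj), hconn i j hij, i, hi,
          Set.subset_union_left⟩
      · obtain ⟨hX1, hX2, l, hl, hlX⟩ := hL3 X hX
        refine ⟨hX1.trans ?_, hX2, l, ((hmem l).mp hl).1, hlX⟩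
        intro v hv
        simp only [Set.mem_iUnion] at hv ⊢
        obtain ⟨y, hy, hvy⟩ := hv
        exact ⟨y, ((hmem y).mp hy).1, hvy⟩

end main

/-- `M 0, ..., M (n - 1)` is a clique pseudo-minor of order `n`: nonempty pairwise disjoint sets of
vertices, the union of any two of which induces a connected subgraph. -/
structure IsCliquePseudoMinor (G : SimpleGraph V) (n : ℕ) (M : Fin n → Set V) : Prop where
  nonempty : ∀ i, (M i).Nonempty
  disjoint : ∀ i j, i ≠ j → Disjoint (M i) (M j)
  connected : ∀ i j, i ≠ j → (G.induce (M i ∪ M j)).Connected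

/-- `G` has a clique minor of order `k`: `k` pairwise disjoint connected vertex sets, any two of
which are joined by an edge. -/
def HasCliqueMinor (G : SimpleGraph V) (k : ℕ) : Prop :=
  ∃ N : Fin k → Set V, (∀ a, (G.induce (N a)).Connected) ∧
    (∀ a b, a ≠ b → Disjoint (N a) (N b)) ∧
    ∀ a b, a ≠ b → ∃ x ∈ N a, ∃ y ∈ N b, G.Adj x y

/-- `G[X]` has at most two connected components. -/
def AtMostTwoComponents (G : SimpleGraph V) (X : Set V) : Prop :=
  ∃ A B : Set V, X = A ∪ B ∧ (G.induce A).Preconnected ∧ (G.induce B).Preconnected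

lemma hasCliqueMinor_of_list (k : ℕ) (L : List (Set V)) (hk : k ≤ L.length)
    (hL : L.Pairwise (fun X Y => Disjoint X Y ∧ Touch G X Y))
    (hc : ∀ X ∈ L, (G.induce X).Connected) : HasCliqueMinor G k := by
  rw [List.pairwise_iff_get] at hL
  have key : ∀ a b : Fin L.length, a ≠ b → Disjoint (L.get a) (L.get b) ∧
      Touch G (L.get a) (L.get b) := by
    intro a b hab
    rcases lt_or_gt_of_ne hab with h | h
    · exact hL a b h
    · exact ⟨(hL b a h).1.symm, (hL b a h).2.symm⟩
  refine ⟨fun a => L.get (Fin.castLE hk a), fun a => hc _ (List.get_mem _ _), ?_, ?_⟩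
  · intro a b hab
    exact (key _ _ (fun e => hab (Fin.castLE_injective hk e))).1
  · intro a b hab
    exact (key _ _ (fun e => hab (Fin.castLE_injective hk e))).2

/-- If `s` of the `n` pseudo-nodes of a clique pseudo-minor of order `n` have at most two
components, then there is a clique minor of order `⌈2 s / 3⌉ + ⌊(n - s) / 2⌋`. In particular
(`S = Finset.univ`) if all the pseudo-nodes have at most two components, then there is a clique
minor of order `⌈2 n / 3⌉`. -/
theorem result (V : Type*) (G : SimpleGraph V) (n : ℕ) (M : Fin n → Set V)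
    (hM : IsCliquePseudoMinor G n M) (S : Finset (Fin n))
    (hS : ∀ i ∈ S, AtMostTwoComponents G (M i)) :
    HasCliqueMinor G (⌈(2 * S.card : ℚ) / 3⌉₊ + ⌊((n - S.card : ℕ) : ℚ) / 2⌋₊) := by
  classical
  obtain ⟨L, hL1, hL2, hL3⟩ := good_part hM.nonempty hM.disjoint hM.connected S.card S rfl hS
  obtain ⟨L', hL1', hL2', hL3'⟩ := pair_part hM.nonempty hM.disjoint hM.connected
    (Sᶜ).card (Sᶜ) rfl
  apply hasCliqueMinor_of_list _ (L ++ L')
  · rw [List.length_append]
    apply Nat.add_le_add
    · refine le_trans ?_ hL1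
      rw [Nat.ceil_le]
      have h3 : 3 * (S.card - S.card / 3) ≥ 2 * S.card := by omega
      have h4 : (2 * S.card : ℚ) ≤ 3 * ((S.card - S.card / 3 : ℕ) : ℚ) := by exact_mod_cast h3
      linarith
    · refine le_trans ?_ hL1'
      rw [Finset.card_compl, Fintype.card_fin]
      have : ((n - S.card : ℕ) : ℚ) / 2 = ((n - S.card : ℕ) : ℚ) / ((2 : ℕ) : ℚ) := by norm_num
      rw [this, Nat.floor_div_natCast, Nat.floor_natCast]
  · rw [List.pairwise_append]
    refine ⟨hL2, hL2', fun X hX Y hY => ?_⟩
    obtain ⟨hX1, hX2, hX3⟩ := hL3 X hX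
    obtain ⟨hY1, hY2, l, hl, hlY⟩ := hL3' Y hY
    refine ⟨?_, (hX3 l (Finset.mem_compl.mp hl)).mono (Set.Subset.refl _) hlY⟩
    apply Disjoint.mono hX1 hY1
    rw [Set.disjoint_iUnion₂_left]
    intro x hx
    rw [Set.disjoint_iUnion₂_right]
    intro y hy
    exact hM.disjoint x y (fun e => (Finset.mem_compl.mp hy) (e ▸ hx))
  · intro X hX
    rcases List.mem_append.mp hX with h | h
    · exact (hL3 X h).2.1
    · exact (hL3' X h).2.1

end Pool.Agent.Results.MP_a374b6_co.TwoComponents
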